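import Pool.Agent.H846R3.Fin3

set_option autoImplicit false

namespace Pool.Agent.Results.MP_89352f_al.SquaresFiniteOrder

open Pool.Agent.H846R3.Sq Pool.Agent.Helper156.OF

lemma ncl_eq {α : Type} [DecidableEq α] [Fintype α] {i j : α} (hij : i ≠ j) {x a : Lt α}
    (hxa : x.1 ≠ a.1) :
    Subgroup.normalClosure ({eAut x a * eAut x a} : Set (MulAut (FreeGroup α))) = MM i j := by
  apply le_antisymm
  · apply Subgroup.normalClosure_le_normal
    rintro _ rfl
    exact MM_sq hij x a
  · unfold MM
    apply Subgroup.normalClosure_le_normal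
    rintro _ rfl
    obtain ⟨w, hw1, hw2⟩ := exists_sp' (x := x) (a := a) (y := ((i, true) : Lt α))
      (b := (j, true)) hxa hij
    have h0 : eAut x a * eAut x a ∈
        Subgroup.normalClosure ({eAut x a * eAut x a} : Set (MulAut (FreeGroup α))) :=
      Subgroup.subset_normalClosure rfl
    have h1 := (Subgroup.normalClosure_normal).conj_mem _ h0 (toAut w)
    have h2 := rel_aut.e0 w x a
    rw [hw1, hw2] at h2
    have h3 : toAut w * (eAut x a * eAut x a) * (toAut w)⁻¹ =
        eAut (i, true) (j, true) * eAut (i, true) (j, true) := by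
      rw [← h2]; group
    rwa [h3] at h1

/-- For `n ≥ 3` the quotient `Q(n,2)` of the automorphism group of the free group of rank `n` by
the normal closure of the square of a Nielsen move is finite, of order `2 ^ (n + 1)` times the
order of the general linear group of degree `n` over the field with two elements. -/
theorem result (n : ℕ) (hn : 3 ≤ n) (i j : Fin n) (hij : i ≠ j)
    (σ : MulAut (FreeGroup (Fin n)))
    (hσ : σ (FreeGroup.of i) = FreeGroup.of j * FreeGroup.of i)
    (hσ' : ∀ l : Fin n, l ≠ i → σ (FreeGroup.of l) = FreeGroup.of l) :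
    Finite (MulAut (FreeGroup (Fin n)) ⧸
        Subgroup.normalClosure ({σ ^ 2} : Set (MulAut (FreeGroup (Fin n))))) ∧
    Nat.card (MulAut (FreeGroup (Fin n)) ⧸
        Subgroup.normalClosure ({σ ^ 2} : Set (MulAut (FreeGroup (Fin n))))) =
      2 ^ (n + 1) * Nat.card (Matrix.GeneralLinearGroup (Fin n) (ZMod 2)) := by
  have h3 : ∀ i j : Fin n, ∃ k, k ≠ i ∧ k ≠ j := by
    intro a b
    have hc : ({a, b} : Finset (Fin n)).card < Fintype.card (Fin n) := by
      have := Finset.card_le_two (a := a) (b := b)
      rw [Fintype.card_fin]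
      omega
    obtain ⟨k, hk⟩ := Finset.exists_mem_notMem_of_card_lt_card
      (s := ({a, b} : Finset (Fin n))) (t := Finset.univ) (by rwa [Finset.card_univ])
    refine ⟨k, ?_, ?_⟩
    · rintro rfl; exact hk.2 (by simp)
    · rintro rfl; exact hk.2 (by simp)
  have hσe : σ = eAut (i, false) (j, false) := by
    apply MulEquiv.toMonoidHom_injective
    ext1 k
    show σ (FreeGroup.of k) = eAut (i, false) (j, false) (FreeGroup.of k)
    by_cases hk : k = i
    · subst hk
      have h1 := eAut_um ((k, false) : Lt (Fin n)) (j, false) hij (k, true)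
      have h2 : nv ((k, true) : Lt (Fin n)) = (k, false) := rfl
      have h4 : ((k, true) : Lt (Fin n)) ≠ (k, false) := by simp
      simp only [um, h2, h4, if_true, if_false, mul_one] at h1
      rw [gl_true] at h1
      rw [h1, hσ]
      have h5 : gl ((j, false) : Lt (Fin n)) = (FreeGroup.of j)⁻¹ := by
        rw [← gl_true, ← gl_nv]
        rfl
      rw [h5, inv_inv]
    · rw [hσ' k hk]
      exact (eAut_fix (i, false) (j, false) (k, true) hk).symm
  have hM : Subgroup.normalClosure ({σ ^ 2} : Set (MulAut (FreeGroup (Fin n)))) = MM i j := by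
    rw [hσe, pow_two]
    exact ncl_eq hij hij
  have hcard : Nat.card (MulAut (FreeGroup (Fin n)) ⧸
        Subgroup.normalClosure ({σ ^ 2} : Set (MulAut (FreeGroup (Fin n))))) =
      2 ^ (n + 1) * Nat.card (Matrix.GeneralLinearGroup (Fin n) (ZMod 2)) := by
    rw [hM]
    have := index_MM h3 hij
    rw [Fintype.card_fin] at this
    exact this
  refine ⟨?_, hcard⟩
  apply Nat.finite_of_card_ne_zero
  rw [hcard]
  exact (Nat.mul_pos (by positivity) Nat.card_pos).ne'

end Pool.Agent.Results.MP_89352f_al.SquaresFiniteOrder
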